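import Pool.Agent.NGM.StmtsK

/-!
# Squad NGM, row GOO (helper56): good times
-/

set_option autoImplicit false

namespace Pool.Agent.NGM.H56

open scoped Pointwise Classical
open Filter Topology Pool.Agent.NGM

universe u

theorem goo (pze : PzeStmt.{u}) : GooStmt.{u} := by
  intro Q _ K D hK hP hQ ε hε
  obtain ⟨ha, hp, hg⟩ := pze Q K hK hQ
  by_contra hcon
  rw [not_frequently] at hcon
  obtain ⟨k0, hk0⟩ := eventually_atTop.1 hcon
  have hlt : ∀ k ≥ k0, aa K (k + 1) < (1 - ε) * aa K k := fun k hk => not_le.1 (hk0 k hk)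
  have hr0 : 0 < 1 - ε := by
    have h1 := hlt k0 le_rfl
    have h2 := ha (k0 + 1)
    by_contra h3
    push Not at h3
    have h4 := mul_nonpos_of_nonpos_of_nonneg h3 (ha k0).le
    linarith
  set r : ℝ := 1 - ε with hr
  have hr1 : r < 1 := by linarith
  -- geometric decay
  have h1 : ∀ j, aa K (k0 + j) ≤ r ^ j * aa K k0 := by
    intro j
    induction j with
    | zero => rw [add_zero, pow_zero, one_mul]
    | succ j ih =>
      have h2 := hlt (k0 + j) (by omega)
      calc aa K (k0 + (j + 1)) ≤ r * aa K (k0 + j) := h2.le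
        _ ≤ r * (r ^ j * aa K k0) := mul_le_mul_of_nonneg_left ih hr0.le
        _ = r ^ (j + 1) * aa K k0 := by ring
  have h2 : ∀ j n, pp K (k0 + j) - pp K (k0 + j + n) ≤ (r ^ j - r ^ (j + n)) * aa K k0 / ε := by
    intro j n
    induction n with
    | zero => simp
    | succ n ih =>
      have h3 := h1 (j + n)
      have h4 : pp K (k0 + j + n) - pp K (k0 + j + (n + 1)) = aa K (k0 + (j + n)) := by
        unfold aa
        rw [add_assoc, add_assoc, add_assoc, add_assoc]
      have h5 : (r ^ j - r ^ (j + (n + 1))) * aa K k0 / ε =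
          (r ^ j - r ^ (j + n)) * aa K k0 / ε + r ^ (j + n) * aa K k0 := by
        have h6 : ε = 1 - r := by rw [hr]; ring
        have h7 : r ^ (j + (n + 1)) = r ^ (j + n) * r := by rw [← add_assoc, pow_succ]
        rw [h7, div_add' _ _ _ hε.ne']
        congr 1
        rw [h6]
        ring
      rw [h5]
      linarith
  have h3 : ∀ j, pp K (k0 + j) ≤ r ^ j * aa K k0 / ε := by
    intro j
    have h4 : ∀ n, pp K (k0 + j) - pp K (k0 + j + n) ≤ r ^ j * aa K k0 / ε := by
      intro n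
      refine (h2 j n).trans ?_
      refine div_le_div_of_nonneg_right (mul_le_mul_of_nonneg_right ?_ (ha k0).le) hε.le
      have := pow_pos hr0 (j + n)
      linarith
    have h5 : Tendsto (fun n => pp K (k0 + j) - pp K (k0 + j + n)) atTop
        (𝓝 (pp K (k0 + j) - 0)) :=
      tendsto_const_nhds.sub (hp.comp (tendsto_atTop_mono (fun n => Nat.le_add_left n _) tendsto_id))
    have h6 := le_of_tendsto' h5 h4
    rwa [sub_zero] at h6
  -- polynomial growth
  obtain ⟨C, hC⟩ := hP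
  have h4 : Tendsto (fun k : ℕ => (C : ℝ) * ((k : ℝ) ^ D * r ^ k) * (aa K k0 / (ε * r ^ k0))) atTop
      (𝓝 ((C : ℝ) * 0 * (aa K k0 / (ε * r ^ k0)))) :=
    ((tendsto_pow_const_mul_const_pow_of_abs_lt_one D
      (by rw [abs_of_pos hr0]; exact hr1)).const_mul _).mul_const _
  rw [mul_zero, zero_mul] at h4
  have h5 := h4.eventually (gt_mem_nhds zero_lt_one)
  obtain ⟨k, hk1, hk2, hk3⟩ := (hC.and_eventually (h5.and (eventually_ge_atTop k0))).exists
  obtain ⟨j, rfl⟩ := Nat.exists_eq_add_of_le hk3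
  have h6 := hg (k0 + j)
  have h7 : (gr K (k0 + j) : ℝ) ≤ (C : ℝ) * ((k0 + j : ℕ) : ℝ) ^ D := by exact_mod_cast hk1
  have h8 : 0 ≤ pp K (k0 + j) := by
    by_contra h9
    push Not at h9
    have := mul_nonpos_of_nonneg_of_nonpos (Nat.cast_nonneg (gr K (k0 + j))) h9.le
    linarith
  have h9 : (gr K (k0 + j) : ℝ) * pp K (k0 + j) ≤
      (C : ℝ) * ((k0 + j : ℕ) : ℝ) ^ D * (r ^ j * aa K k0 / ε) :=
    mul_le_mul h7 (h3 j) h8 (by positivity)
  have h10 : (C : ℝ) * ((k0 + j : ℕ) : ℝ) ^ D * (r ^ j * aa K k0 / ε) =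
      (C : ℝ) * (((k0 + j : ℕ) : ℝ) ^ D * r ^ (k0 + j)) * (aa K k0 / (ε * r ^ k0)) := by
    have h11 : r ^ k0 ≠ 0 := (pow_pos hr0 _).ne'
    rw [pow_add]
    field_simp
  rw [h10] at h9
  linarith

end Pool.Agent.NGM.H56
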