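import Pool.Agent.NGM.StmtsK

/-!
# Squad NGM, row PZE (helper56): return probabilities
-/

set_option autoImplicit false

namespace Pool.Agent.NGM.H56

open scoped Pointwise Classical
open Filter Topology Pool.Agent.NGM

universe u

theorem pow_inv_mem {Q : Type u} [Group Q] {K : Finset Q} (hK : GenSet K) (n : ℕ) :
    ∀ g ∈ K ^ n, g⁻¹ ∈ K ^ n := by
  induction n with
  | zero =>
    intro g hg
    rw [pow_zero, Finset.mem_one] at hg ⊢
    rw [hg, inv_one]
  | succ n ih =>
    intro g hg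
    rw [pow_succ, Finset.mem_mul] at hg
    obtain ⟨a, ha, s, hs, rfl⟩ := hg
    rw [pow_succ', Finset.mem_mul]
    exact ⟨s⁻¹, hK.inv s hs, a⁻¹, ih a ha, (mul_inv_rev a s).symm⟩

theorem exists_mem_pow {Q : Type u} [Group Q] {K : Finset Q} (hK : GenSet K) (g : Q) :
    ∃ n, g ∈ K ^ n := by
  have hg : g ∈ Subgroup.closure (K : Set Q) := by
    rw [hK.top]
    exact Subgroup.mem_top g
  induction hg using Subgroup.closure_induction with
  | mem x hx => exact ⟨1, by rw [pow_one]; exact hx⟩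
  | one => exact ⟨0, by rw [pow_zero]; exact Finset.mem_one.2 rfl⟩
  | mul x y _ _ hx hy =>
    obtain ⟨m, hm⟩ := hx
    obtain ⟨n, hn⟩ := hy
    exact ⟨m + n, by rw [pow_add]; exact Finset.mul_mem_mul hm hn⟩
  | inv x _ hx =>
    obtain ⟨m, hm⟩ := hx
    exact ⟨m, pow_inv_mem hK m x hm⟩

theorem pow_mono {Q : Type u} [Group Q] {K : Finset Q} (hK : GenSet K) {m n : ℕ} (h : m ≤ n) :
    K ^ m ⊆ K ^ n := Finset.pow_subset_pow_right hK.one h

theorem pp_eq (wkS : WkStmt.{u}) {Q : Type u} [Group Q] {K : Finset Q} (hK : GenSet K) (k : ℕ) :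
    pp K k = ∑ y ∈ K ^ k, wk K k y ^ 2 := by
  obtain ⟨-, -, h3, -, -, h6⟩ := wkS Q K hK k
  unfold pp
  rw [two_mul, h6 k 1]
  refine Finset.sum_congr rfl fun y _ => ?_
  rw [mul_one, h3]
  ring

theorem one_le_gr (wkS : WkStmt.{u}) {Q : Type u} [Group Q] {K : Finset Q} (hK : GenSet K)
    (k : ℕ) : 1 ≤ (gr K k : ℝ) * pp K k := by
  obtain ⟨-, -, -, -, h5, -⟩ := wkS Q K hK k
  rw [pp_eq wkS hK]
  have h := sq_sum_le_card_mul_sum_sq (s := K ^ k) (f := wk K k)
  rw [h5, one_pow] at h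
  exact h

theorem pp_pos (wkS : WkStmt.{u}) {Q : Type u} [Group Q] {K : Finset Q} (hK : GenSet K)
    (k : ℕ) : 0 < pp K k := by
  have h1 := one_le_gr wkS hK k
  have h2 : 0 ≤ pp K k := by
    rw [pp_eq wkS hK]
    exact Finset.sum_nonneg fun _ _ => sq_nonneg _
  rcases h2.lt_or_eq with h3 | h3
  · exact h3
  · rw [← h3, mul_zero] at h1
    exact absurd h1 (by norm_num)

theorem pze (wkS : WkStmt.{u}) (bnd : BndStmt.{u}) : PzeStmt.{u} := by
  intro Q _ K hK hQ
  have ha : ∀ k, 0 < aa K k := by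
    intro k
    by_contra hcon
    push Not at hcon
    have h1 : ∀ g : Q, g ∈ K ^ (2 * k) := by
      intro g
      obtain ⟨n, hn⟩ := exists_mem_pow hK g
      have h2 := (bnd Q K hK k n g hn).1
      have h3 : (n : ℝ) ^ 2 * (K.card : ℝ) ^ 2 * aa K k ≤ 0 :=
        mul_nonpos_of_nonneg_of_nonpos (by positivity) hcon
      have h4 := pp_pos wkS hK k
      apply (wkS Q K hK (2 * k)).2.1
      intro h5
      rw [h5] at h2
      linarith
    have h2 : (Set.univ : Set Q).Finite :=
      (K ^ (2 * k)).finite_toSet.subset fun g _ => Finset.mem_coe.2 (h1 g)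
    exact Set.infinite_univ h2
  refine ⟨ha, ?_, one_le_gr wkS hK⟩
  have hanti : Antitone (pp K) := antitone_nat_of_succ_le fun k => by
    have h1 := ha k
    unfold aa at h1
    linarith
  have hbd : BddBelow (Set.range (pp K)) := ⟨0, by
    rintro _ ⟨k, rfl⟩
    exact (pp_pos wkS hK k).le⟩
  have hlim := tendsto_atTop_ciInf hanti hbd
  set p : ℝ := ⨅ k, pp K k with hp
  have hp0 : 0 ≤ p := le_ciInf fun k => (pp_pos wkS hK k).le
  rcases hp0.lt_or_eq with hpos | h0
  · exfalso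
    obtain ⟨m, hm⟩ := exists_nat_gt (1 / p)
    obtain ⟨S, hS⟩ := Infinite.exists_subset_card_eq Q m
    have h1 : ∃ n, S ⊆ K ^ n := by
      clear hS
      induction S using Finset.induction_on with
      | empty => exact ⟨0, Finset.empty_subset _⟩
      | insert g S _ ih =>
        obtain ⟨n, hn⟩ := ih
        obtain ⟨n', hn'⟩ := exists_mem_pow hK g
        refine ⟨max n n', ?_⟩
        intro x hx
        rw [Finset.mem_insert] at hx
        rcases hx with rfl | hx
        · exact pow_mono hK (le_max_right _ _) hn'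
        · exact pow_mono hK (le_max_left _ _) (hn hx)
    obtain ⟨n, hn⟩ := h1
    have h2 : ∀ k, (m : ℝ) * (pp K k - (n : ℝ) ^ 2 * (K.card : ℝ) ^ 2 * aa K k) ≤ 1 := by
      intro k
      obtain ⟨w1, w2, -, -, w5, -⟩ := wkS Q K hK (2 * k)
      calc (m : ℝ) * (pp K k - (n : ℝ) ^ 2 * (K.card : ℝ) ^ 2 * aa K k)
          = ∑ _g ∈ S, (pp K k - (n : ℝ) ^ 2 * (K.card : ℝ) ^ 2 * aa K k) := by
            rw [Finset.sum_const, hS, nsmul_eq_mul]
        _ ≤ ∑ g ∈ S, wk K (2 * k) g := by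
            refine Finset.sum_le_sum fun g hg => ?_
            have h3 := (bnd Q K hK k n g (hn hg)).1
            linarith
        _ ≤ ∑ g ∈ S ∪ K ^ (2 * k), wk K (2 * k) g :=
            Finset.sum_le_sum_of_subset_of_nonneg Finset.subset_union_left fun g _ _ => w1 g
        _ = ∑ g ∈ K ^ (2 * k), wk K (2 * k) g := by
            refine (Finset.sum_subset Finset.subset_union_right fun g _ hg => ?_).symm
            by_contra h4
            exact hg (w2 g h4)
        _ = 1 := w5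
    have h3 : Tendsto (fun k => aa K k) atTop (𝓝 0) := by
      have h4 := hlim.sub (hlim.comp (tendsto_add_atTop_nat 1))
      rw [sub_self] at h4
      exact h4
    have h4 : Tendsto (fun k => (m : ℝ) * (pp K k - (n : ℝ) ^ 2 * (K.card : ℝ) ^ 2 * aa K k)) atTop
        (𝓝 ((m : ℝ) * (p - (n : ℝ) ^ 2 * (K.card : ℝ) ^ 2 * 0))) :=
      (hlim.sub (h3.const_mul _)).const_mul _
    have h5 := le_of_tendsto' h4 h2
    rw [mul_zero, sub_zero] at h5
    rw [div_lt_iff₀ hpos] at hm
    linarith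
  · rw [← h0] at hlim
    exact hlim

end Pool.Agent.NGM.H56
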